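import Mathlib

set_option autoImplicit false

/-!
# [H82 GG GLB] THEOREM G (MP_1bad5e_ag), section 8: the abstract 100 % lemma

`J h` finite index types, `Good F h x` a condition on the vectors `x : J h → F`, fulfilled by a share `≥ c > 0` of them for
all finite fields `F` of odd characteristic with at least `Q` elements and `h ≥ h₀(F)`.  Let `O` have finite residue fields
of any size (with the property `P`).  Then for every `ε > 0` there are an ideal `I` of finite index in `O` and `h₁` such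
that for `h ≥ h₁` and every `V ⊆ O` which is equidistributed modulo `I` up to `δ`, `δ * card (J h) ≤ ε / 2`, at least
`(1 - ε) |V| ^ card (J h)` of the vectors with entries in `V` have a good image in some residue field killing `I`.

* `bij`, `vec_bad`: Chinese remainder theorem, bad vectors over `O ⧸ I` = product of the bad vectors over the `F s`.
* `vec_lift`: each vector over `O ⧸ I` has at least `m ^ card J` lifts with entries in `V`.
* `glb`: the lemma.
-/

namespace Pool.Agent.H82.GG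

/-- Chinese remainder theorem -/
theorem bij {O S : Type} [CommRing O] [Fintype S] (F : S → Type) [∀ s, Field (F s)]
    (φ : ∀ s, O →+* F s) (hφ : ∀ s, Function.Surjective (φ s))
    (hne : ∀ s t, s ≠ t → RingHom.ker (φ s) ≠ RingHom.ker (φ t)) {I : Ideal O}
    (hI : I = ⨅ s, RingHom.ker (φ s)) (ψ : ∀ s, O ⧸ I →+* F s)
    (hψ : ∀ s, (ψ s).comp (Ideal.Quotient.mk I) = φ s) :
    Function.Bijective (fun (x : O ⧸ I) (s : S) => ψ s x) := by
  have hψ' : ∀ s a, ψ s (Ideal.Quotient.mk I a) = φ s a := fun s a => by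
    rw [← hψ s]
    rfl
  constructor
  · intro x y hxy
    obtain ⟨a, rfl⟩ := Ideal.Quotient.mk_surjective x
    obtain ⟨b, rfl⟩ := Ideal.Quotient.mk_surjective y
    rw [Ideal.Quotient.eq, hI, Ideal.mem_iInf]
    intro s
    have h1 : ψ s (Ideal.Quotient.mk I a) = ψ s (Ideal.Quotient.mk I b) := congrFun hxy s
    rw [hψ', hψ'] at h1
    rw [RingHom.mem_ker, map_sub, h1, sub_self]
  · intro y
    choose a ha using fun s => hφ s (y s)
    obtain ⟨r, hr⟩ := Ideal.exists_forall_sub_mem_ideal (I := fun s => RingHom.ker (φ s)) (by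
      intro s t hst
      show IsCoprime (RingHom.ker (φ s)) (RingHom.ker (φ t))
      have h1 : (RingHom.ker (φ s)).IsMaximal := RingHom.ker_isMaximal_of_surjective (φ s) (hφ s)
      have h2 : (RingHom.ker (φ t)).IsMaximal := RingHom.ker_isMaximal_of_surjective (φ t) (hφ t)
      rw [Ideal.isCoprime_iff_sup_eq]
      exact h1.coprime_of_ne h2 (hne s t hst)) a
    refine ⟨Ideal.Quotient.mk I r, ?_⟩
    funext s
    show ψ s (Ideal.Quotient.mk I r) = y s
    have h1 := hr s
    rw [RingHom.mem_ker, map_sub, sub_eq_zero] at h1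
    rw [hψ', h1, ha]

/-- the vectors over the quotient which are bad in all residue fields -/
theorem vec_bad {O S : Type} [CommRing O] [Fintype S] (F : S → Type) [∀ s, Field (F s)]
    {I : Ideal O} (ψ : ∀ s, O ⧸ I →+* F s)
    (hb : Function.Bijective (fun (x : O ⧸ I) (s : S) => ψ s x)) {J : Type} [Finite J]
    (Bad : ∀ s, (J → F s) → Prop) :
    Nat.card {g : J → O ⧸ I // ∀ s, Bad s (fun i => ψ s (g i))} =
      ∏ s, Nat.card {g : J → F s // Bad s g} := by
  rw [← Nat.card_pi]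
  refine Nat.card_congr (Equiv.ofBijective (fun f s => ⟨fun i => ψ s (f.1 i), f.2 s⟩) ⟨?_, ?_⟩)
  · intro f f' hff
    apply Subtype.ext
    funext i
    apply hb.1
    funext s
    exact congrFun (congrArg Subtype.val (congrFun hff s)) i
  · intro y
    choose x hx using fun i => hb.2 (fun s => (y s).1 i)
    have hx' : ∀ s, (fun i => ψ s (x i)) = (y s).1 := fun s => funext fun i => congrFun (hx i) s
    refine ⟨⟨x, fun s => ?_⟩, ?_⟩
    · have h2 := (y s).2
      rw [← hx' s] at h2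
      exact h2
    · funext s
      exact Subtype.ext (hx' s)

/-- finitely many vectors with entries in a finite set -/
theorem vec_fin {O J : Type} [Finite J] (V : Finset O) : {x : J → O | ∀ i, x i ∈ V}.Finite := by
  refine (Set.finite_range (fun f : J → V => fun i => ((f i : V) : O))).subset ?_
  intro x hx
  exact ⟨fun i => ⟨x i, hx i⟩, rfl⟩

theorem vec_card {O J : Type} [Finite J] (V : Finset O) :
    Nat.card {x : J → O // ∀ i, x i ∈ V} = V.card ^ Nat.card J := by
  have h2 : Nat.card {x : J → O // ∀ i, x i ∈ V} = Nat.card (J → V) :=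
    Nat.card_congr ⟨fun f i => ⟨f.1 i, f.2 i⟩, fun f => ⟨fun i => (f i).1, fun i => (f i).2⟩,
      fun f => rfl, fun f => rfl⟩
  rw [h2, Nat.card_fun, Nat.card_eq_fintype_card (α := V), Fintype.card_coe]

/-- lifts of the vectors over the quotient -/
theorem vec_lift {O : Type} [CommRing O] (I : Ideal O) [Finite (O ⧸ I)] (V : Finset O) {J : Type}
    [Finite J] {m : ℝ} (hm : 0 ≤ m)
    (h : ∀ c : O ⧸ I, m ≤ (Nat.card {v : O // v ∈ V ∧ Ideal.Quotient.mk I v = c} : ℝ))
    (G : (J → O ⧸ I) → Prop) :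
    m ^ Nat.card J * (Nat.card {g : J → O ⧸ I // G g} : ℝ) ≤
      (Nat.card {x : J → O // (∀ i, x i ∈ V) ∧ G (fun i => Ideal.Quotient.mk I (x i))} : ℝ) := by
  classical
  have : Fintype J := Fintype.ofFinite J
  let S : Type := {g : J → O ⧸ I // G g}
  let T : Type := {x : J → O // (∀ i, x i ∈ V) ∧ G (fun i => Ideal.Quotient.mk I (x i))}
  let π : T → S := fun f => ⟨fun i => Ideal.Quotient.mk I (f.1 i), f.2.2⟩
  haveI : Finite S := inferInstanceAs (Finite {g : J → O ⧸ I // G g})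
  haveI : Fintype S := Fintype.ofFinite S
  haveI hfin : ∀ c : O ⧸ I, Finite {v : O // v ∈ V ∧ Ideal.Quotient.mk I v = c} := fun c =>
    (V.finite_toSet.subset (fun v hv => hv.1) : {v | v ∈ V ∧ Ideal.Quotient.mk I v = c}.Finite)
  have hfib : ∀ g : S, Nat.card {f : T // π f = g} =
      ∏ i, Nat.card {v : O // v ∈ V ∧ Ideal.Quotient.mk I v = g.1 i} := by
    intro g
    rw [← Nat.card_pi]
    refine Nat.card_congr ⟨fun f i => ⟨f.1.1 i, f.1.2.1 i, congrFun (congrArg Subtype.val f.2) i⟩,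
      fun y => ⟨⟨fun i => (y i).1, fun i => (y i).2.1, ?_⟩, ?_⟩, ?_, ?_⟩
    · have h1 : (fun i => Ideal.Quotient.mk I ((y i).1)) = g.1 := funext fun i => (y i).2.2
      have h2 := g.2
      rw [← h1] at h2
      exact h2
    · exact Subtype.ext (funext fun i => (y i).2.2)
    · intro f
      rfl
    · intro f
      rfl
  haveI hTfin : Finite T := by
    refine Finite.of_injective (β := J → V) (fun f i => ⟨f.1 i, f.2.1 i⟩) ?_
    intro f f' hff
    apply Subtype.ext
    funext i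
    exact congrArg Subtype.val (congrFun hff i)
  haveI hfibf : ∀ g : S, Finite {f : T // π f = g} := fun g => inferInstance
  have hsum : Nat.card T = ∑ g : S, Nat.card {f : T // π f = g} := by
    rw [← Nat.card_sigma]
    exact Nat.card_congr (Equiv.sigmaFiberEquiv π).symm
  have hmain : m ^ Nat.card J * (Nat.card S : ℝ) ≤ (Nat.card T : ℝ) := by
    rw [hsum]
    push_cast
    have h1 : m ^ Nat.card J * (Nat.card S : ℝ) = ∑ g : S, m ^ Nat.card J := by
      rw [Finset.sum_const, Finset.card_univ, nsmul_eq_mul, Nat.card_eq_fintype_card (α := S)]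
      ring
    rw [h1]
    refine Finset.sum_le_sum fun g _ => ?_
    rw [hfib g]
    push_cast
    have h2 : m ^ Nat.card J = ∏ _i : J, m := by
      rw [Finset.prod_const, Finset.card_univ, ← Nat.card_eq_fintype_card]
    rw [h2]
    exact Finset.prod_le_prod (fun i _ => hm) (fun i _ => h (g.1 i))
  exact hmain

/-- a finite reduction -/
private structure Rdn (O : Type) [CommRing O] (P : ∀ (F : Type) [Field F], (O →+* F) → Prop) where
  F : Type
  fld : Field F
  fin : Finite F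
  φ : O →+* F
  surj : Function.Surjective φ
  two : (2 : F) ≠ 0
  pp : P F φ

/-- bad vectors over a finite field -/
private theorem fac {F J : Type} [Field F] [Finite F] [Finite J] {c : ℝ} (Good : (J → F) → Prop)
    (h : c * (Nat.card F : ℝ) ^ Nat.card J ≤ (Nat.card {g : J → F // Good g} : ℝ)) :
    (Nat.card {g : J → F // ¬ Good g} : ℝ) ≤ (1 - c) * (Nat.card F : ℝ) ^ Nat.card J := by
  classical
  have : Fintype (J → F) := Fintype.ofFinite _
  have h1 : Nat.card {g : J → F // Good g} + Nat.card {g : J → F // ¬ Good g} =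
      Nat.card F ^ Nat.card J := by
    rw [← Nat.card_fun, ← Nat.card_sum]
    exact Nat.card_congr (Equiv.sumCompl Good)
  have h2 : (Nat.card {g : J → F // Good g} : ℝ) + (Nat.card {g : J → F // ¬ Good g} : ℝ) =
      (Nat.card F : ℝ) ^ Nat.card J := by exact_mod_cast h1
  linarith

/-- the good vectors over the quotient -/
private theorem mainT {O S : Type} [CommRing O] [Fintype S] (F : S → Type) [∀ s, Field (F s)]
    [∀ s, Finite (F s)] {I : Ideal O} (ψ : ∀ s, O ⧸ I →+* F s)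
    (hb : Function.Bijective (fun (x : O ⧸ I) (s : S) => ψ s x)) {J : Type} [Finite J]
    (Good : ∀ s, (J → F s) → Prop) {c ε : ℝ}
    (hc : ∀ s, (Nat.card {g : J → F s // ¬ Good s g} : ℝ) ≤ (1 - c) * (Nat.card (F s) : ℝ) ^ Nat.card J)
    (hs : (1 - c) ^ Fintype.card S ≤ ε / 2) :
    (1 - ε / 2) * (Nat.card (O ⧸ I) : ℝ) ^ Nat.card J ≤
      (Nat.card {g : J → O ⧸ I // ∃ s, Good s (fun i => ψ s (g i))} : ℝ) := by
  classical
  have hfin : Finite (O ⧸ I) := Finite.of_injective _ hb.1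
  have hcard : Nat.card (O ⧸ I) = ∏ s, Nat.card (F s) := by
    rw [Nat.card_congr (Equiv.ofBijective _ hb), Nat.card_pi]
  have h1 : Nat.card {g : J → O ⧸ I // ∃ s, Good s (fun i => ψ s (g i))} +
      Nat.card {g : J → O ⧸ I // ¬ ∃ s, Good s (fun i => ψ s (g i))} =
      Nat.card (O ⧸ I) ^ Nat.card J := by
    rw [← Nat.card_fun, ← Nat.card_sum]
    exact Nat.card_congr (Equiv.sumCompl _)
  have h2 : Nat.card {g : J → O ⧸ I // ¬ ∃ s, Good s (fun i => ψ s (g i))} =
      ∏ s, Nat.card {g : J → F s // ¬ Good s g} := by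
    rw [← vec_bad F ψ hb (fun s g => ¬ Good s g)]
    exact Nat.card_congr (Equiv.subtypeEquivRight fun g => by push Not; rfl)
  have h5 : (Nat.card {g : J → O ⧸ I // ¬ ∃ s, Good s (fun i => ψ s (g i))} : ℝ) ≤
      (Nat.card (O ⧸ I) : ℝ) ^ Nat.card J * (ε / 2) := by
    rw [h2]
    push_cast
    refine (Finset.prod_le_prod (fun s _ => Nat.cast_nonneg _) fun s _ => hc s).trans ?_
    rw [Finset.prod_mul_distrib, Finset.prod_const, Finset.card_univ, Finset.prod_pow, hcard]
    push_cast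
    rw [mul_comm]
    refine mul_le_mul_of_nonneg_left hs ?_
    exact pow_nonneg (Finset.prod_nonneg fun s _ => Nat.cast_nonneg _) _
  have h7 : (Nat.card {g : J → O ⧸ I // ∃ s, Good s (fun i => ψ s (g i))} : ℝ) +
      (Nat.card {g : J → O ⧸ I // ¬ ∃ s, Good s (fun i => ψ s (g i))} : ℝ) =
      (Nat.card (O ⧸ I) : ℝ) ^ Nat.card J := by exact_mod_cast h1
  linarith

/-- Bernoulli -/
private theorem bern {ε δ : ℝ} (hε1 : ε ≤ 1) (hδ1 : δ ≤ 1) {M : ℕ}
    (hδ : δ * (M : ℝ) ≤ ε / 2) {v q : ℝ} (hv : 0 ≤ v) (hq : 0 < q) :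
    (1 - ε) * v ^ M ≤ ((1 - δ) * v / q) ^ M * ((1 - ε / 2) * q ^ M) := by
  have h1 : (1 : ℝ) - ε / 2 ≤ (1 - δ) ^ M := by
    have h7 := one_add_mul_le_pow (a := -δ) (by linarith) M
    rw [← sub_eq_add_neg] at h7
    linarith
  have h2 : ((1 - δ) * v / q) ^ M * ((1 - ε / 2) * q ^ M) = (1 - δ) ^ M * (1 - ε / 2) * v ^ M := by
    rw [div_pow, mul_pow]
    have : q ^ M ≠ 0 := by positivity
    field_simp
  rw [h2]
  refine mul_le_mul_of_nonneg_right ?_ (by positivity)
  have h3 := mul_le_mul_of_nonneg_right h1 (show (0 : ℝ) ≤ 1 - ε / 2 by linarith)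
  refine le_trans ?_ h3
  nlinarith [sq_nonneg ε]

/-- **The abstract 100 % lemma.** -/
theorem glb (O : Type) [CommRing O] (P : ∀ (F : Type) [Field F], (O →+* F) → Prop)
    (hP : ∀ B : ℕ, ∃ (F : Type) (_ : Field F) (_ : Finite F) (φ : O →+* F),
      Function.Surjective φ ∧ B < Nat.card F ∧ (2 : F) ≠ 0 ∧ P F φ)
    (J : ℕ → Type) [∀ h, Finite (J h)] (Good : ∀ (F : Type) [Field F] (h : ℕ), (J h → F) → Prop)
    (c : ℝ) (hc : 0 < c) (Q : ℕ)
    (H : ∀ (F : Type) [Field F] [Finite F], (2 : F) ≠ 0 → Q ≤ Nat.card F → ∃ h₀ : ℕ, ∀ h ≥ h₀,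
      c * (Nat.card F : ℝ) ^ Nat.card (J h) ≤ (Nat.card {x : J h → F // Good F h x} : ℝ))
    (ε : ℝ) (hε : 0 < ε) :
    ∃ (I : Ideal O) (h₁ : ℕ), Finite (O ⧸ I) ∧ ∀ h : ℕ, h₁ ≤ h → ∀ δ : ℝ, δ ≤ 1 →
      δ * (Nat.card (J h) : ℝ) ≤ ε / 2 → ∀ V : Finset O,
      (∀ c : O ⧸ I, (1 - δ) * (V.card : ℝ) ≤ (Nat.card (O ⧸ I) : ℝ) *
        (Nat.card {v : O // v ∈ V ∧ Ideal.Quotient.mk I v = c} : ℝ)) →
      (1 - ε) * (V.card : ℝ) ^ Nat.card (J h) ≤
        (Nat.card {x : J h → O // (∀ i, x i ∈ V) ∧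
          ∃ (F : Type) (_ : Field F) (_ : Finite F) (φ : O →+* F), Function.Surjective φ ∧
            (∀ x ∈ I, φ x = 0) ∧ (2 : F) ≠ 0 ∧ P F φ ∧ Good F h (fun i => φ (x i))} : ℝ) := by
  classical
  rcases lt_or_ge 1 ε with hε1 | hε1
  · refine ⟨⊤, 0, ?_, fun h _ δ _ _ V _ => ?_⟩
    · have : Subsingleton (O ⧸ (⊤ : Ideal O)) := Ideal.Quotient.subsingleton_iff.2 rfl
      infer_instance
    · refine le_trans ?_ (Nat.cast_nonneg _)
      exact mul_nonpos_of_nonpos_of_nonneg (by linarith) (by positivity)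
  -- the share is at most one
  have hc1 : c ≤ 1 := by
    obtain ⟨F, i1, i2, φ, h1, h2, h3, h4⟩ := hP Q
    obtain ⟨h₀, h5⟩ := H F h3 h2.le
    have h6 := fac (Good F h₀) (h5 h₀ le_rfl)
    have h7 : (0 : ℝ) ≤ (1 - c) * (Nat.card F : ℝ) ^ Nat.card (J h₀) :=
      (Nat.cast_nonneg _).trans h6
    have h8 : (0 : ℝ) < (Nat.card F : ℝ) ^ Nat.card (J h₀) := by
      have : 0 < Nat.card F := Nat.card_pos
      positivity
    by_contra hcon
    push Not at hcon
    nlinarith
  obtain ⟨s, hs⟩ := exists_pow_lt_of_lt_one (half_pos hε) (show 1 - c < 1 by linarith)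
  -- the sequence of the fields
  have h' : ∀ B : ℕ, ∃ t : Rdn O P, B < Nat.card t.F := by
    intro B
    obtain ⟨F, i1, i2, φ, h1, h2, h3, h4⟩ := hP B
    exact ⟨⟨F, i1, i2, φ, h1, h3, h4⟩, h2⟩
  choose g hg using h'
  let a : ℕ → Rdn O P := fun l => Nat.rec (g Q) (fun _ t => g (Nat.card t.F)) l
  have ha : ∀ l, Nat.card (a l).F < Nat.card (a (l + 1)).F := fun l => hg (Nat.card (a l).F)
  have ha0 : Q < Nat.card (a 0).F := hg Q
  have hmono : StrictMono fun l => Nat.card (a l).F := strictMono_nat_of_lt_succ ha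
  have haQ : ∀ l, Q ≤ Nat.card (a l).F := fun l =>
    ha0.le.trans (hmono.monotone (Nat.zero_le l))
  let F : Fin s → Type := fun l => (a l).F
  let iF : ∀ l, Field (F l) := fun l => (a l).fld
  have fF : ∀ l, Finite (F l) := fun l => (a l).fin
  let φ : ∀ l, O →+* F l := fun l => (a l).φ
  have hφ : ∀ l, Function.Surjective (φ l) := fun l => (a l).surj
  have hne : ∀ l t, l ≠ t → RingHom.ker (φ l) ≠ RingHom.ker (φ t) := by
    intro l t hlt heq
    have h1 := Nat.card_congr (RingHom.quotientKerEquivOfSurjective (hφ l)).toEquiv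
    have h2 := Nat.card_congr (RingHom.quotientKerEquivOfSurjective (hφ t)).toEquiv
    rw [heq] at h1
    have h3 : Nat.card (F l) = Nat.card (F t) := h1.symm.trans h2
    exact hlt (Fin.ext (hmono.injective h3))
  obtain ⟨I, hI⟩ : ∃ I : Ideal O, I = ⨅ l, RingHom.ker (φ l) := ⟨_, rfl⟩
  have h0 : ∀ l, ∀ x ∈ I, φ l x = 0 := by
    intro l x hx
    rw [hI, Ideal.mem_iInf] at hx
    exact hx l
  let ψ : ∀ l, O ⧸ I →+* F l := fun l => Ideal.Quotient.lift I (φ l) (h0 l)
  have hψ : ∀ l, (ψ l).comp (Ideal.Quotient.mk I) = φ l := fun l => by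
    ext x
    simp [ψ]
  have hb := bij F φ hφ hne hI ψ hψ
  have hn0 : ∀ l : Fin s, ∃ h₀ : ℕ, ∀ h ≥ h₀, c * (Nat.card (F l) : ℝ) ^ Nat.card (J h) ≤
      (Nat.card {x : J h → F l // Good (F l) h x} : ℝ) := fun l => H (F l) (a l).two (haQ l)
  choose f hf using hn0
  have hfin : Finite (O ⧸ I) := Finite.of_injective _ hb.1
  refine ⟨I, Finset.univ.sup f, hfin, fun h hh δ hδ1 hδ V hV => ?_⟩
  have hT := mainT F ψ hb (J := J h) (fun l x => Good (F l) h x)
    (c := c) (ε := ε) (fun l => fac (Good (F l) h)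
      (hf l h ((Finset.le_sup (Finset.mem_univ l)).trans hh))) (by
      rw [Fintype.card_fin]
      exact hs.le)
  have hq : 0 < Nat.card (O ⧸ I) := Nat.card_pos
  have hqr : (0 : ℝ) < (Nat.card (O ⧸ I) : ℝ) := by exact_mod_cast hq
  have hm : 0 ≤ (1 - δ) * (V.card : ℝ) / (Nat.card (O ⧸ I) : ℝ) :=
    div_nonneg (mul_nonneg (by linarith) (Nat.cast_nonneg _)) hqr.le
  have hcva := vec_lift I V (J := J h) hm (fun x => by
    rw [div_le_iff₀ hqr, mul_comm (Nat.card {v : O // v ∈ V ∧ Ideal.Quotient.mk I v = x} : ℝ)]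
    exact hV x) (fun x => ∃ l, Good (F l) h (fun i => ψ l (x i)))
  have hfinal : Nat.card {x : J h → O // (∀ i, x i ∈ V) ∧
      ∃ l, Good (F l) h (fun i => ψ l (Ideal.Quotient.mk I (x i)))} ≤
      Nat.card {x : J h → O // (∀ i, x i ∈ V) ∧
          ∃ (F : Type) (_ : Field F) (_ : Finite F) (φ : O →+* F), Function.Surjective φ ∧
            (∀ x ∈ I, φ x = 0) ∧ (2 : F) ≠ 0 ∧ P F φ ∧ Good F h (fun i => φ (x i))} := by
    refine Set.ncard_le_ncard (s := {x : J h → O | (∀ i, x i ∈ V) ∧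
      ∃ l, Good (F l) h (fun i => ψ l (Ideal.Quotient.mk I (x i)))})
      (t := {x : J h → O | (∀ i, x i ∈ V) ∧
          ∃ (F : Type) (_ : Field F) (_ : Finite F) (φ : O →+* F), Function.Surjective φ ∧
            (∀ x ∈ I, φ x = 0) ∧ (2 : F) ≠ 0 ∧ P F φ ∧ Good F h (fun i => φ (x i))}) ?_ ?_
    · rintro x ⟨h1, l, h3⟩
      refine ⟨h1, F l, iF l, fF l, φ l, hφ l, h0 l, (a l).two, (a l).pp, ?_⟩
      have h4 : (fun i => ψ l (Ideal.Quotient.mk I (x i))) = fun i => φ l (x i) := by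
        funext i
        exact RingHom.congr_fun (hψ l) (x i)
      rw [h4] at h3
      exact h3
    · exact (vec_fin V).subset fun x hx => hx.1
  have hfinal' : (Nat.card {x : J h → O // (∀ i, x i ∈ V) ∧
      ∃ l, Good (F l) h (fun i => ψ l (Ideal.Quotient.mk I (x i)))} : ℝ) ≤ _ := Nat.cast_le.2 hfinal
  refine le_trans ?_ (hcva.trans hfinal')
  refine (bern hε1 hδ1 hδ (Nat.cast_nonneg V.card) hqr).trans ?_
  exact mul_le_mul_of_nonneg_left hT (pow_nonneg hm _)

end Pool.Agent.H82.GG
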