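import Pool.Agent.H82.GG.GLB

set_option autoImplicit false

/-!
# [H82 GG GLF] THEOREM G (MP_1bad5e_ag), section 8: the 100 % lemma for pairs `(D, f)`

`BoxD V k D`: `D ∈ R[t]` of degree `≤ k`, the coefficients in the degrees `0, …, k` are in `V`.
`BoxF V m h f`: `f ∈ R[t][x]` monic of degree `m` in `x`, the coefficient of `x ^ i` has degree `≤ (m - i) h` and its
coefficients in the degrees `0, …, (m - i) h` are in `V`.

* `box_card`: there are `V.card ^ (h m (m + 1) / 2 + m + k + 1)` such pairs.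
* `glf`: the 100 % lemma for the conditions `Good F h D f`.
-/

namespace Pool.Agent.H82.GG

open Polynomial

/-- `D` has degree at most `k` and its coefficients in the degrees `0, …, k` are in `V` -/
def BoxD {R : Type} [CommRing R] (V : Set R) (k : ℕ) (D : R[X]) : Prop :=
  D.natDegree ≤ k ∧ ∀ j ≤ k, D.coeff j ∈ V

/-- `f` is monic of degree `m` in `x`, the coefficient of `x ^ i` has degree `≤ (m - i) h` and its
coefficients in the degrees `0, …, (m - i) h` are in `V` -/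
structure BoxF {R : Type} [CommRing R] (V : Set R) (m h : ℕ) (f : R[X][X]) : Prop where
  monic : f.Monic
  deg : f.natDegree = m
  coeff : ∀ i < m, (f.coeff i).natDegree ≤ (m - i) * h ∧ ∀ j ≤ (m - i) * h, (f.coeff i).coeff j ∈ V

/-- indices of the coefficients -/
abbrev Jx (m h k : ℕ) : Type := (Σ i : Fin m, Fin ((m - (i : ℕ)) * h + 1)) ⊕ Fin (k + 1)

theorem Jx_card (m h k : ℕ) : Nat.card (Jx m h k) = h * (m * (m + 1) / 2) + m + k + 1 := by
  rw [Nat.card_eq_fintype_card, Fintype.card_sum, Fintype.card_sigma, Fintype.card_fin]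
  simp only [Fintype.card_fin]
  rw [Finset.sum_add_distrib, ← Finset.sum_mul, Finset.sum_const, Finset.card_univ, Fintype.card_fin,
    smul_eq_mul, mul_one]
  have h1 : ∑ i : Fin m, (m - (i : ℕ)) = m * (m + 1) / 2 := by
    rw [Fin.sum_univ_eq_sum_range (fun i => m - i) m]
    have h2 : ∑ i ∈ Finset.range m, (m - i) = ∑ i ∈ Finset.range (m + 1), i := by
      rw [← Finset.sum_range_reflect (fun i => i) (m + 1), Finset.sum_range_succ]
      simp
    rw [h2, Finset.sum_range_id, Nat.add_sub_cancel, mul_comm]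
  rw [h1]
  ring

/-- a polynomial with given coefficients -/
noncomputable def bp {R : Type} [CommRing R] {d : ℕ} (x : Fin (d + 1) → R) : R[X] :=
  ∑ i : Fin (d + 1), monomial (i : ℕ) (x i)

theorem bp_coeff {R : Type} [CommRing R] {d : ℕ} (x : Fin (d + 1) → R) (j : Fin (d + 1)) :
    (bp x).coeff (j : ℕ) = x j := by
  unfold bp
  rw [finsetSum_coeff]
  rw [Finset.sum_eq_single j]
  · rw [coeff_monomial, if_pos rfl]
  · intro i _ hi
    rw [coeff_monomial, if_neg]
    intro h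
    exact hi (Fin.ext h)
  · intro h
    exact absurd (Finset.mem_univ j) h

theorem bp_deg {R : Type} [CommRing R] {d : ℕ} (x : Fin (d + 1) → R) :
    (bp x).natDegree ≤ d := by
  unfold bp
  refine natDegree_sum_le_of_forall_le _ _ (fun i _ => ?_)
  exact (natDegree_monomial_le _).trans (Nat.lt_succ_iff.mp i.2)

theorem bp_self {R : Type} [CommRing R] {d : ℕ} {f : R[X]} (hf : f.natDegree ≤ d) :
    bp (fun i : Fin (d + 1) => f.coeff (i : ℕ)) = f := by
  ext j
  by_cases hj : j < d + 1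
  · exact bp_coeff (fun i : Fin (d + 1) => f.coeff (i : ℕ)) ⟨j, hj⟩
  · rw [coeff_eq_zero_of_natDegree_lt (lt_of_le_of_lt hf (by omega)),
      coeff_eq_zero_of_natDegree_lt (lt_of_le_of_lt (bp_deg _) (by omega))]

theorem bp_map {R R' : Type} [CommRing R] [CommRing R'] (φ : R →+* R') {d : ℕ}
    (x : Fin (d + 1) → R) : (bp x).map φ = bp (fun i => φ (x i)) := by
  unfold bp
  rw [Polynomial.map_sum]
  refine Finset.sum_congr rfl fun i _ => ?_
  rw [map_monomial]

/-- the polynomial `f` with given coefficients -/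
noncomputable def bf {R : Type} [CommRing R] {m h k : ℕ} (x : Jx m h k → R) : R[X][X] :=
  X ^ m + ∑ i : Fin m, monomial (i : ℕ) (bp fun j => x (Sum.inl ⟨i, j⟩))

/-- the polynomial `D` with given coefficients -/
noncomputable def bd {R : Type} [CommRing R] {m h k : ℕ} (x : Jx m h k → R) : R[X] :=
  bp fun j => x (Sum.inr j)

theorem bf_lt {R : Type} [CommRing R] {m h k : ℕ} (x : Jx m h k → R) :
    (∑ i : Fin m, monomial (i : ℕ) (bp fun j => x (Sum.inl ⟨i, j⟩))).degree < (m : WithBot ℕ) := by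
  refine (degree_sum_le _ _).trans_lt ?_
  refine (Finset.sup_lt_iff (WithBot.bot_lt_coe m)).2 fun i _ => ?_
  exact (degree_monomial_le _ _).trans_lt (WithBot.coe_lt_coe.2 i.2)

theorem bf_monic {R : Type} [CommRing R] {m h k : ℕ} (x : Jx m h k → R) : (bf x).Monic :=
  monic_X_pow_add (bf_lt x)

theorem bf_deg {R : Type} [CommRing R] [Nontrivial R] {m h k : ℕ} (x : Jx m h k → R) :
    (bf x).natDegree = m := by
  have h1 : (bf x).degree = (m : WithBot ℕ) := by
    unfold bf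
    rw [degree_add_eq_left_of_degree_lt, degree_X_pow]
    rw [degree_X_pow]
    exact bf_lt x
  exact natDegree_eq_of_degree_eq_some h1

theorem bf_coeff {R : Type} [CommRing R] {m h k : ℕ} (x : Jx m h k → R) (i : Fin m) :
    (bf x).coeff (i : ℕ) = bp fun j => x (Sum.inl ⟨i, j⟩) := by
  unfold bf
  rw [coeff_add, coeff_X_pow, if_neg i.2.ne, zero_add, finsetSum_coeff,
    Finset.sum_eq_single i]
  · rw [coeff_monomial, if_pos rfl]
  · intro j _ hj
    rw [coeff_monomial, if_neg]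
    intro h
    exact hj (Fin.ext h)
  · intro h
    exact absurd (Finset.mem_univ i) h

theorem bf_map {R R' : Type} [CommRing R] [CommRing R'] (φ : R →+* R') {m h k : ℕ}
    (x : Jx m h k → R) : (bf x).map (mapRingHom φ) = bf (fun i => φ (x i)) := by
  unfold bf
  rw [Polynomial.map_add, Polynomial.map_pow, map_X, Polynomial.map_sum]
  congr 1
  refine Finset.sum_congr rfl fun i _ => ?_
  rw [map_monomial, coe_mapRingHom, bp_map]

theorem bd_map {R R' : Type} [CommRing R] [CommRing R'] (φ : R →+* R') {m h k : ℕ}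
    (x : Jx m h k → R) : (bd x).map φ = bd (fun i => φ (x i)) := bp_map φ _

theorem bf_self {R : Type} [CommRing R] [Nontrivial R] {m h k : ℕ} {f : R[X][X]} (hf : f.Monic)
    (hd : f.natDegree = m) (hc : ∀ i < m, (f.coeff i).natDegree ≤ (m - i) * h) (x : Jx m h k → R)
    (hx : ∀ (i : Fin m) (j : Fin ((m - (i : ℕ)) * h + 1)),
      x (Sum.inl ⟨i, j⟩) = (f.coeff (i : ℕ)).coeff (j : ℕ)) : bf x = f := by
  ext1 i
  rcases lt_trichotomy i m with hi | hi | hi
  · have h1 := bf_coeff x ⟨i, hi⟩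
    have h2 : (bf x).coeff i = bp fun j => x (Sum.inl ⟨⟨i, hi⟩, j⟩) := h1
    rw [h2]
    have h3 : (fun j => x (Sum.inl ⟨⟨i, hi⟩, j⟩)) = fun j : Fin ((m - i) * h + 1) =>
        (f.coeff i).coeff (j : ℕ) := funext fun j => hx ⟨i, hi⟩ j
    rw [h3]
    exact bp_self (hc i hi)
  · subst hi
    have h1 := (bf_monic x).coeff_natDegree
    rw [bf_deg] at h1
    have h2 := hf.coeff_natDegree
    rw [hd] at h2
    rw [h1, h2]
  · rw [coeff_eq_zero_of_natDegree_lt (by rw [bf_deg]; exact hi),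
      coeff_eq_zero_of_natDegree_lt (by rw [hd]; exact hi)]

theorem box_iff {R : Type} [CommRing R] [Nontrivial R] (V : Set R) {m h k : ℕ} (x : Jx m h k → R) :
    (BoxD V k (bd x) ∧ BoxF V m h (bf x)) ↔ ∀ i, x i ∈ V := by
  constructor
  · rintro ⟨h1, h2⟩ i
    rcases i with ⟨i, j⟩ | j
    · have h3 := (h2.coeff (i : ℕ) i.2).2 (j : ℕ) (Nat.lt_succ_iff.1 j.2)
      rw [bf_coeff, bp_coeff] at h3
      exact h3
    · have h3 := h1.2 (j : ℕ) (Nat.lt_succ_iff.1 j.2)
      have h4 : (bd x).coeff (j : ℕ) = x (Sum.inr j) := bp_coeff (fun j => x (Sum.inr j)) j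
      rw [h4] at h3
      exact h3
  · intro hx
    refine ⟨⟨bp_deg _, fun j hj => ?_⟩, ⟨bf_monic x, bf_deg x, fun i hi => ⟨?_, fun j hj => ?_⟩⟩⟩
    · have h4 := bp_coeff (fun j => x (Sum.inr j)) ⟨j, Nat.lt_succ_of_le hj⟩
      have h5 : (bd x).coeff j = x (Sum.inr ⟨j, Nat.lt_succ_of_le hj⟩) := h4
      rw [h5]
      exact hx _
    · have h1 : (bf x).coeff i = _ := bf_coeff x ⟨i, hi⟩
      rw [h1]
      exact bp_deg _
    · have h1 : (bf x).coeff i = _ := bf_coeff x ⟨i, hi⟩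
      rw [h1]
      have h2 := bp_coeff (fun j => x (Sum.inl ⟨⟨i, hi⟩, j⟩)) ⟨j, Nat.lt_succ_of_le hj⟩
      have h3 : (bp fun j => x (Sum.inl ⟨⟨i, hi⟩, j⟩)).coeff j = _ := h2
      rw [h3]
      exact hx _

/-- pairs of polynomials and vectors -/
theorem box_congr {R : Type} [CommRing R] [Nontrivial R] (V : Set R) (m h k : ℕ)
    (G : R[X] → R[X][X] → Prop) :
    Nat.card {x : Jx m h k → R // (∀ i, x i ∈ V) ∧ G (bd x) (bf x)} =
      Nat.card {p : R[X] × R[X][X] // BoxD V k p.1 ∧ BoxF V m h p.2 ∧ G p.1 p.2} := by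
  have key : ∀ p : R[X] × R[X][X], BoxD V k p.1 → BoxF V m h p.2 →
      ∀ x : Jx m h k → R, x = Sum.elim
        (fun i : (Σ i : Fin m, Fin ((m - (i : ℕ)) * h + 1)) => (p.2.coeff (i.1 : ℕ)).coeff (i.2 : ℕ))
        (fun j : Fin (k + 1) => p.1.coeff (j : ℕ)) → bd x = p.1 ∧ bf x = p.2 := by
    intro p h1 h2 x hx
    constructor
    · have h3 : (fun j => x (Sum.inr j)) = fun j : Fin (k + 1) => p.1.coeff (j : ℕ) := by
        rw [hx]
        rfl
      show bp (fun j => x (Sum.inr j)) = p.1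
      rw [h3]
      exact bp_self h1.1
    · refine bf_self h2.monic h2.deg (fun i hi => (h2.coeff i hi).1) x fun i j => ?_
      rw [hx]
      rfl
  refine Nat.card_congr ⟨fun x => ⟨(bd x.1, bf x.1), ?_⟩, fun p =>
    ⟨Sum.elim (fun i => (p.1.2.coeff (i.1 : ℕ)).coeff (i.2 : ℕ)) (fun j => p.1.1.coeff (j : ℕ)), ?_⟩,
    ?_, ?_⟩
  · have h1 := (box_iff V x.1).2 x.2.1
    exact ⟨h1.1, h1.2, x.2.2⟩
  · obtain ⟨h1, h2⟩ := key p.1 p.2.1 p.2.2.1 _ rfl
    refine ⟨(box_iff V _).1 ⟨?_, ?_⟩, ?_⟩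
    · rw [h1]
      exact p.2.1
    · rw [h2]
      exact p.2.2.1
    · rw [h1, h2]
      exact p.2.2.2
  · rintro ⟨x, hx⟩
    apply Subtype.ext
    funext i
    rcases i with ⟨i, j⟩ | j
    · show ((bf x).coeff (i : ℕ)).coeff (j : ℕ) = x (Sum.inl ⟨i, j⟩)
      rw [bf_coeff, bp_coeff]
    · exact bp_coeff (fun j => x (Sum.inr j)) j
  · rintro ⟨p, hp⟩
    apply Subtype.ext
    obtain ⟨h1, h2⟩ := key p hp.1 hp.2.1 _ rfl
    exact Prod.ext h1 h2

/-- finitely many pairs -/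
theorem box_fin {R : Type} [CommRing R] [Nontrivial R] (V : Finset R) (m h k : ℕ) :
    {p : R[X] × R[X][X] | BoxD (V : Set R) k p.1 ∧ BoxF (V : Set R) m h p.2}.Finite := by
  refine ((vec_fin (J := Jx m h k) V).image fun x => (bd x, bf x)).subset ?_
  rintro ⟨D, f⟩ ⟨h1, h2⟩
  have h3 : bd (m := m) (h := h) (k := k) (Sum.elim (fun i => (f.coeff (i.1 : ℕ)).coeff (i.2 : ℕ))
      (fun j => D.coeff (j : ℕ))) = D := bp_self h1.1
  have h4 : bf (m := m) (h := h) (k := k) (Sum.elim (fun i => (f.coeff (i.1 : ℕ)).coeff (i.2 : ℕ))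
      (fun j => D.coeff (j : ℕ))) = f :=
    bf_self h2.monic h2.deg (fun i hi => (h2.coeff i hi).1) _ fun i j => rfl
  refine ⟨_, ?_, Prod.ext h3 h4⟩
  refine (box_iff (V : Set R) _).1 ⟨?_, ?_⟩
  · rw [h3]
    exact h1
  · rw [h4]
    exact h2

/-- the number of the pairs -/
theorem box_card {R : Type} [CommRing R] [Nontrivial R] (V : Finset R) (m h k : ℕ) :
    Nat.card {p : R[X] × R[X][X] // BoxD (V : Set R) k p.1 ∧ BoxF (V : Set R) m h p.2} =
      V.card ^ (h * (m * (m + 1) / 2) + m + k + 1) := by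
  have h1 := box_congr (V : Set R) m h k (fun _ _ => True)
  have h2 : Nat.card {p : R[X] × R[X][X] // BoxD (V : Set R) k p.1 ∧ BoxF (V : Set R) m h p.2} =
      Nat.card {p : R[X] × R[X][X] // BoxD (V : Set R) k p.1 ∧ BoxF (V : Set R) m h p.2 ∧ True} :=
    Nat.card_congr (Equiv.subtypeEquivRight fun p => by simp only [and_true])
  have h3 : Nat.card {x : Jx m h k → R // (∀ i, x i ∈ (V : Set R)) ∧ True} =
      Nat.card {x : Jx m h k → R // ∀ i, x i ∈ V} :=
    Nat.card_congr (Equiv.subtypeEquivRight fun p => by simp only [and_true, Finset.mem_coe])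
  rw [h2, ← h1, h3, vec_card, Jx_card]

/-- **The 100 % lemma for pairs `(D, f)`.** -/
theorem glf (O : Type) [CommRing O] [IsDomain O] (P : ∀ (F : Type) [Field F], (O →+* F) → Prop)
    (hP : ∀ B : ℕ, ∃ (F : Type) (_ : Field F) (_ : Finite F) (φ : O →+* F),
      Function.Surjective φ ∧ B < Nat.card F ∧ (2 : F) ≠ 0 ∧ P F φ)
    (m k : ℕ) (Good : ∀ (F : Type) [Field F] (_h : ℕ), F[X] → F[X][X] → Prop)
    (c : ℝ) (hc : 0 < c) (Q : ℕ)
    (H : ∀ (F : Type) [Field F] [Finite F], (2 : F) ≠ 0 → Q ≤ Nat.card F → ∃ h₀ : ℕ, ∀ h ≥ h₀,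
      c * (Nat.card F : ℝ) ^ (h * (m * (m + 1) / 2) + m + k + 1) ≤
        (Nat.card {p : F[X] × F[X][X] // BoxD Set.univ k p.1 ∧ BoxF Set.univ m h p.2 ∧
          Good F h p.1 p.2} : ℝ))
    (ε : ℝ) (hε : 0 < ε) :
    ∃ (I : Ideal O) (h₁ : ℕ), Finite (O ⧸ I) ∧ ∀ h : ℕ, h₁ ≤ h → ∀ δ : ℝ, δ ≤ 1 →
      δ * ((h * (m * (m + 1) / 2) + m + k + 1 : ℕ) : ℝ) ≤ ε / 2 → ∀ V : Finset O,
      (∀ c : O ⧸ I, (1 - δ) * (V.card : ℝ) ≤ (Nat.card (O ⧸ I) : ℝ) *
        (Nat.card {v : O // v ∈ V ∧ Ideal.Quotient.mk I v = c} : ℝ)) →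
      (1 - ε) * (V.card : ℝ) ^ (h * (m * (m + 1) / 2) + m + k + 1) ≤
        (Nat.card {p : O[X] × O[X][X] // BoxD (V : Set O) k p.1 ∧ BoxF (V : Set O) m h p.2 ∧
          ∃ (F : Type) (_ : Field F) (_ : Finite F) (φ : O →+* F), Function.Surjective φ ∧
            (∀ x ∈ I, φ x = 0) ∧ (2 : F) ≠ 0 ∧ P F φ ∧
              Good F h (p.1.map φ) (p.2.map (mapRingHom φ))} : ℝ) := by
  obtain ⟨I, h₁, hI, h1⟩ := glb O P hP (fun h => Jx m h k)
    (fun F _ h x => Good F h (bd x) (bf x)) c hc Q (fun F _ _ h2 hQ => by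
      obtain ⟨h₀, h3⟩ := H F h2 hQ
      refine ⟨h₀, fun h hh => ?_⟩
      have h4 := h3 h hh
      rw [← box_congr Set.univ m h k (Good F h)] at h4
      rw [Jx_card]
      refine h4.trans_eq ?_
      congr 1
      exact Nat.card_congr (Equiv.subtypeEquivRight fun x => by
        simp only [Set.mem_univ, implies_true, true_and])) ε hε
  refine ⟨I, h₁, hI, fun h hh δ hδ1 hδ V hV => ?_⟩
  have h2 := h1 h hh δ hδ1 (by rw [Jx_card]; exact hδ) V hV
  rw [Jx_card] at h2
  refine h2.trans_eq ?_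
  rw [← box_congr (V : Set O) m h k (fun D f => ∃ (F : Type) (_ : Field F) (_ : Finite F)
    (φ : O →+* F), Function.Surjective φ ∧ (∀ x ∈ I, φ x = 0) ∧ (2 : F) ≠ 0 ∧ P F φ ∧
      Good F h (D.map φ) (f.map (mapRingHom φ)))]
  congr 1
  refine Nat.card_congr (Equiv.subtypeEquivRight fun x => ?_)
  simp only [bd_map, bf_map, Finset.mem_coe]

end Pool.Agent.H82.GG
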