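import Pool.Agent.H82.GG.GLF
import Pool.Agent.H94.GG.Defs

set_option autoImplicit false

/-!
# [H82 GG GLG] THEOREM G (MP_1bad5e_ag), section 8: from finite fields to domains

`glg`: if over all finite fields of odd characteristic with at least `Q` elements a share `≥ c > 0` of the pairs `(D, f)`,
`D ∈ F[t]` of degree `≤ k`, `f ∈ Fam m h`, has the property `Good F h` (`h ≥ h₀(F)`), then over a domain `O` with residue
fields of any size 100 % of the pairs have a reduction with this property.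
-/

namespace Pool.Agent.H82.GG

open Polynomial

theorem boxF_univ {F : Type} [Field F] {m h : ℕ} {f : F[X][X]} :
    BoxF Set.univ m h f ↔ H94.GG.Fam m h f :=
  ⟨fun H => ⟨H.monic, H.deg, fun i hi => (H.coeff i hi).1⟩,
    fun H => ⟨H.monic, H.deg, fun i hi => ⟨H.coeff i hi, fun _ _ => Set.mem_univ _⟩⟩⟩

theorem boxD_univ {F : Type} [Field F] {k : ℕ} {D : F[X]} :
    BoxD Set.univ k D ↔ D.natDegree ≤ k :=
  ⟨fun H => H.1, fun H => ⟨H, fun _ _ => Set.mem_univ _⟩⟩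

theorem glg (O : Type) [CommRing O] [IsDomain O] (P : ∀ (F : Type) [Field F], (O →+* F) → Prop)
    (hP : ∀ B : ℕ, ∃ (F : Type) (_ : Field F) (_ : Finite F) (φ : O →+* F),
      Function.Surjective φ ∧ B < Nat.card F ∧ (2 : F) ≠ 0 ∧ P F φ)
    (m k : ℕ) (Good : ∀ (F : Type) [Field F] (_h : ℕ), F[X] → F[X][X] → Prop)
    (c : ℝ) (hc : 0 < c) (Q : ℕ)
    (H : ∀ (F : Type) [Field F] [Finite F], (2 : F) ≠ 0 → Q ≤ Nat.card F → ∃ h₀ : ℕ, ∀ h ≥ h₀,
      c * (Nat.card F : ℝ) ^ (h * (m * (m + 1) / 2) + m + k + 1) ≤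
        (Nat.card {p : F[X] × F[X][X] // p.1.natDegree ≤ k ∧ H94.GG.Fam m h p.2 ∧
          Good F h p.1 p.2} : ℝ))
    (ε : ℝ) (hε : 0 < ε) :
    ∃ (I : Ideal O) (h₁ : ℕ), Finite (O ⧸ I) ∧ ∀ h : ℕ, h₁ ≤ h → ∀ δ : ℝ, δ ≤ 1 →
      δ * ((h * (m * (m + 1) / 2) + m + k + 1 : ℕ) : ℝ) ≤ ε / 2 → ∀ V : Finset O,
      (∀ c : O ⧸ I, (1 - δ) * (V.card : ℝ) ≤ (Nat.card (O ⧸ I) : ℝ) *
        (Nat.card {v : O // v ∈ V ∧ Ideal.Quotient.mk I v = c} : ℝ)) →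
      (1 - ε) * (V.card : ℝ) ^ (h * (m * (m + 1) / 2) + m + k + 1) ≤
        (Nat.card {p : O[X] × O[X][X] // BoxD (V : Set O) k p.1 ∧ BoxF (V : Set O) m h p.2 ∧
          ∃ (F : Type) (_ : Field F) (_ : Finite F) (φ : O →+* F), Function.Surjective φ ∧
            (∀ x ∈ I, φ x = 0) ∧ (2 : F) ≠ 0 ∧ P F φ ∧
              Good F h (p.1.map φ) (p.2.map (mapRingHom φ))} : ℝ) := by
  refine glf O P hP m k Good c hc Q (fun F _ _ h2 hQ => ?_) ε hε
  obtain ⟨h₀, h3⟩ := H F h2 hQ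
  refine ⟨h₀, fun h hh => (h3 h hh).trans_eq ?_⟩
  congr 1
  exact Nat.card_congr (Equiv.subtypeEquivRight fun p => by rw [boxD_univ, boxF_univ])

end Pool.Agent.H82.GG
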